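import Mathlib

set_option autoImplicit false
open Filter

namespace Pool.Agent.Lib.MP_b28f50_lc.AssignedEvasion

def pre (z : ℕ → Bool) (m : ℕ) : List Bool := (List.range m).map z

theorem pre_length (z : ℕ → Bool) (m : ℕ) : (pre z m).length = m := by simp [pre]

theorem pre_succ (z : ℕ → Bool) (m : ℕ) : pre z (m + 1) = pre z m ++ [z m] := by
  unfold pre
  rw [List.range_succ, List.map_append, List.map_singleton]

theorem pre_add (z : ℕ → Bool) (a b : ℕ) :
    pre z (a + b) = pre z a ++ (List.range b).map (fun r => z (a + r)) := by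
  unfold pre
  rw [List.range_add, List.map_append, List.map_map]
  rfl

theorem pre_prefix (z : ℕ → Bool) {a b : ℕ} (h : a ≤ b) : pre z a <+: pre z b := by
  obtain ⟨c, rfl⟩ := Nat.exists_eq_add_of_le h
  rw [pre_add]
  exact List.prefix_append _ _

theorem pre_of_prefix (z : ℕ → Bool) (t u : List Bool) (h : t <+: u)
    (hu : pre z u.length = u) : pre z t.length = t := by
  obtain ⟨c, rfl⟩ := h
  rw [List.length_append, pre_add] at hu
  exact (List.append_inj hu (by simp [pre])).1

theorem exists_limit (l : ℕ → List Bool) (hpre : ∀ i, l i <+: l (i + 1))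
    (hlen : ∀ i, i ≤ (l i).length) :
    ∃ z : ℕ → Bool, ∀ i, pre z (l i).length = l i := by
  have hmono : ∀ i j, i ≤ j → l i <+: l j := by
    intro i j hij
    induction j, hij using Nat.le_induction with
    | base => exact List.prefix_refl _
    | succ j _ ih => exact ih.trans (hpre j)
  refine ⟨fun m => (l (m + 1)).getD m default, fun i => ?_⟩
  apply List.ext_getElem
  · simp [pre]
  · intro m h1 h2
    simp only [pre, List.getElem_map, List.getElem_range]
    have hm : m < (l (m + 1)).length := lt_of_lt_of_le (Nat.lt_succ_self m) (hlen (m + 1))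
    rw [List.getD_eq_getElem _ _ hm]
    rcases le_total i (m + 1) with h | h
    · exact ((hmono i (m + 1) h).getElem h2).symm
    · exact (hmono (m + 1) i h).getElem hm

def Good (X : Set (ℕ → Bool)) (s0 : List Bool) : Prop :=
  ∀ W : List Bool → List Bool, (∀ s, s <+: W s) → ∀ t, s0 <+: t →
    ∃ z ∈ X, pre z t.length = t ∧ ∃ᶠ m in atTop, pre z (W (pre z m)).length = W (pre z m)

theorem pigeon (κ : (ℕ → Bool) → ℕ) : ∃ k s0, Good {f | κ f = k} s0 := by
  by_contra hcon
  push Not at hcon
  unfold Good at hcon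
  push Not at hcon
  choose W hW t ht hbad using hcon
  let e : ℕ → ℕ × List Bool := fun i =>
    ((Encodable.decode (Nat.unpair i).1 : Option (ℕ × List Bool))).getD (0, [])
  let step : ℕ → List Bool → List Bool := fun i l =>
    W (e i).1 (e i).2 (t i l) ++ [true]
  let l : ℕ → List Bool := fun i => Nat.rec [] step i
  have hls : ∀ i, l (i + 1) = W (e i).1 (e i).2 (t i (l i)) ++ [true] := fun i => rfl
  have h1 : ∀ i, l i <+: t i (l i) := fun i => ht i (l i)
  have h2 : ∀ i, t i (l i) <+: W (e i).1 (e i).2 (t i (l i)) := fun i => hW _ _ _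
  have h3 : ∀ i, W (e i).1 (e i).2 (t i (l i)) <+: l (i + 1) := fun i => by
    rw [hls]; exact List.prefix_append _ _
  have hpre : ∀ i, l i <+: l (i + 1) := fun i => ((h1 i).trans (h2 i)).trans (h3 i)
  have hlen : ∀ i, i ≤ (l i).length := by
    intro i
    induction i with
    | zero => exact Nat.zero_le _
    | succ i ih =>
      have := ((h1 i).trans (h2 i)).length_le
      rw [hls, List.length_append, List.length_singleton]
      omega
  obtain ⟨z, hz⟩ := exists_limit l hpre hlen
  have hzt : ∀ i, pre z (t i (l i)).length = t i (l i) := fun i =>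
    pre_of_prefix z _ _ ((h2 i).trans (h3 i)) (hz (i + 1))
  have hzW : ∀ i, pre z (W (e i).1 (e i).2 (t i (l i))).length
      = W (e i).1 (e i).2 (t i (l i)) := fun i =>
    pre_of_prefix z _ _ (h3 i) (hz (i + 1))
  let k := κ z
  have hev := hbad k (l k) z rfl (hzt k)
  suffices hfr : ∃ᶠ m in atTop, pre z (W k (l k) (pre z m)).length = W k (l k) (pre z m) by
    obtain ⟨m, h4, h5⟩ := (hfr.and_eventually hev).exists
    exact h5 h4
  rw [frequently_atTop]
  intro M
  let i := Nat.pair (Encodable.encode ((k, l k) : ℕ × List Bool)) M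
  have hi : M ≤ i := Nat.right_le_pair _ _
  have hei : e i = (k, l k) := by
    show ((Encodable.decode (Nat.unpair i).1 : Option (ℕ × List Bool))).getD (0, []) = _
    rw [Nat.unpair_pair]
    simp [Encodable.encodek]
  refine ⟨(t i (l i)).length, ?_, ?_⟩
  · exact (hi.trans (hlen i)).trans (h1 i).length_le
  · rw [hzt i]
    have := hzW i
    rw [hei] at this
    exact this

section Layers

theorem layers {ι : Type} (hι : Cardinal.aleph0 ≤ Cardinal.mk ι) (F : ι → List Bool → ℕ)
    (hF : ∀ g : List Bool → ℕ, ∃ i, ∀ s, g s ≤ F i s) (X : Set (ℕ → Bool)) (s0 : List Bool)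
    (hX : Good X s0) (K : ℕ) :
    ∀ (j : ℕ) (A : List Bool → Finset (Fin K → Bool)),
      (∀ s, s0 <+: s → ∃ t, s <+: t ∧ Fintype.card (Fin K → Bool) ≤ (A t).card + j) →
      ∃ E : Set (ℕ → Bool), E ⊆ X ∧ Cardinal.mk E ≤ Cardinal.mk ι ∧
        ∀ χ : List Bool → (Fin K → Bool), (∀ ρ, χ ρ ∉ A ρ) →
          ∃ y ∈ E, ∃ᶠ m in atTop, (fun r : Fin K => y (m + r)) = χ (pre y m) := by
  classical
  intro j
  induction j with
  | zero =>
    intro A hA
    refine ⟨∅, by simp, by simp, ?_⟩
    intro χ hχ
    exfalso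
    obtain ⟨t, -, ht⟩ := hA s0 (List.prefix_refl _)
    have : A t = Finset.univ := by
      rw [← Finset.card_eq_iff_eq_univ]
      exact le_antisymm (Finset.card_le_univ _) (by simpa using ht)
    exact hχ t (by rw [this]; exact Finset.mem_univ _)
  | succ j ih =>
    intro A hA
    have ha : ∀ t : List Bool, ∃ x : Fin K → Bool, x ∈ A t → A t = Finset.univ := by
      intro t
      by_cases h : A t = Finset.univ
      · exact ⟨fun _ => true, fun _ => h⟩
      · have : ∃ x, x ∉ A t := by
          by_contra hcon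
          push Not at hcon
          exact h (Finset.eq_univ_iff_forall.2 hcon)
        obtain ⟨x, hx⟩ := this
        exact ⟨x, fun h' => absurd h' hx⟩
    choose a ha using ha
    have hext : ∀ s, ∃ t, s <+: t ∧
        (s0 <+: s → Fintype.card (Fin K → Bool) ≤ (A t).card + (j + 1)) := by
      intro s
      by_cases h : s0 <+: s
      · obtain ⟨t, h1, h2⟩ := hA s h
        exact ⟨t, h1, fun _ => h2⟩
      · exact ⟨s, List.prefix_refl _, fun h' => absurd h' h⟩
    choose ext hext1 hext2 using hext
    let W : List Bool → List Bool := fun s => ext s ++ List.ofFn (a (ext s))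
    have hW : ∀ s, s <+: W s := fun s => (hext1 s).trans (List.prefix_append _ _)
    have hz : ∀ u : List Bool, ∃ z ∈ X, pre z (s0 ++ u).length = s0 ++ u ∧
        ∃ᶠ m in atTop, Fintype.card (Fin K → Bool) ≤ (A (pre z m)).card + (j + 1) ∧
          (fun r : Fin K => z (m + r)) = a (pre z m) := by
      intro u
      obtain ⟨z, hzX, hz1, hz2⟩ := hX W hW (s0 ++ u) (List.prefix_append _ _)
      refine ⟨z, hzX, hz1, ?_⟩
      rw [frequently_atTop] at hz2 ⊢
      intro M
      obtain ⟨m, hm, hob⟩ := hz2 (max M s0.length)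
      have hs0 : pre z s0.length = s0 :=
        pre_of_prefix z _ _ (List.prefix_append _ _) hz1
      have hs0m : s0 <+: pre z m := by
        have := pre_prefix z (le_trans (le_max_right _ _) hm)
        rwa [hs0] at this
      have hob' : pre z ((ext (pre z m)).length + K) =
          ext (pre z m) ++ List.ofFn (a (ext (pre z m))) := by
        have hl : (W (pre z m)).length = (ext (pre z m)).length + K := by simp [W]
        rw [hl] at hob
        exact hob
      rw [pre_add] at hob'
      have h4 := List.append_inj hob' (by simp [pre])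
      refine ⟨(ext (pre z m)).length, ?_, ?_, ?_⟩
      · have := (hext1 (pre z m)).length_le
        rw [pre_length] at this
        exact (le_trans (le_max_left _ _) hm).trans this
      · rw [h4.1]
        exact hext2 _ hs0m
      · rw [h4.1]
        funext r
        have h5 := congrArg (fun L : List Bool => L.getD r.1 true) h4.2
        simpa using h5
    choose z hzX hz1 hz2 using hz
    let B : ι → List Bool → Finset (Fin K → Bool) := fun i ρ =>
      if ∃ u m, F i u ≤ m ∧ pre (z u) m = ρ ∧ (fun r : Fin K => z u (m + r)) = a ρ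
      then insert (a ρ) (A ρ)
      else A ρ
    have hB : ∀ i, ∀ s, s0 <+: s → ∃ t, s <+: t ∧
        Fintype.card (Fin K → Bool) ≤ (B i t).card + j := by
      intro i s hs
      obtain ⟨u, rfl⟩ := hs
      have h1 := (frequently_atTop.1 (hz2 u)) (max (F i u) (s0 ++ u).length)
      obtain ⟨m, hm, hN, hdir⟩ := h1
      refine ⟨pre (z u) m, ?_, ?_⟩
      · have h2 := pre_prefix (z u) (le_trans (le_max_right _ _) hm)
        rwa [hz1 u] at h2
      · have hif : ∃ u' m', F i u' ≤ m' ∧ pre (z u') m' = pre (z u) m ∧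
            (fun r : Fin K => z u' (m' + r)) = a (pre (z u) m) :=
          ⟨u, m, le_trans (le_max_left _ _) hm, rfl, hdir⟩
        have hBe : B i (pre (z u) m) = insert (a (pre (z u) m)) (A (pre (z u) m)) := if_pos hif
        rw [hBe]
        by_cases hmem : a (pre (z u) m) ∈ A (pre (z u) m)
        · have huniv := ha _ hmem
          rw [huniv]
          have : (insert (a (pre (z u) m)) (Finset.univ : Finset (Fin K → Bool))).card
              = Fintype.card (Fin K → Bool) := by
            rw [Finset.insert_eq_of_mem (Finset.mem_univ _)]; rfl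
          omega
        · rw [Finset.card_insert_of_notMem hmem]
          omega
    choose E hEX hE1 hE2 using fun i => ih (B i) (hB i)
    refine ⟨Set.range z ∪ ⋃ i, E i, ?_, ?_, ?_⟩
    · apply Set.union_subset
      · rintro _ ⟨u, rfl⟩
        exact hzX u
      · exact Set.iUnion_subset hEX
    · refine (Cardinal.mk_union_le _ _).trans ?_
      have h1 : Cardinal.mk (Set.range z) ≤ Cardinal.mk ι :=
        (Cardinal.mk_le_aleph0_iff.2 (Set.countable_range z).to_subtype).trans hι
      have h2 : Cardinal.mk (⋃ i, E i : Set (ℕ → Bool)) ≤ Cardinal.mk ι := by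
        refine (Cardinal.mk_iUnion_le _).trans ?_
        refine (mul_le_mul' le_rfl (ciSup_le' hE1)).trans ?_
        rw [Cardinal.mul_eq_self hι]
      refine (add_le_add h1 h2).trans ?_
      rw [Cardinal.add_eq_self hι]
    · intro χ hχ
      by_cases hcase : ∃ u, ∃ᶠ m in atTop, (fun r : Fin K => z u (m + r)) = χ (pre (z u) m)
      · obtain ⟨u, hu⟩ := hcase
        exact ⟨z u, Or.inl ⟨u, rfl⟩, hu⟩
      · push Not at hcase
        have hn : ∀ u, ∃ n, ∀ m, n ≤ m → (fun r : Fin K => z u (m + r)) ≠ χ (pre (z u) m) :=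
          fun u => eventually_atTop.1 (hcase u)
        choose n hn using hn
        obtain ⟨i, hi⟩ := hF n
        have hχB : ∀ ρ, χ ρ ∉ B i ρ := by
          intro ρ
          by_cases hif : ∃ u m, F i u ≤ m ∧ pre (z u) m = ρ ∧
              (fun r : Fin K => z u (m + r)) = a ρ
          · have hBe : B i ρ = insert (a ρ) (A ρ) := if_pos hif
            rw [hBe, Finset.mem_insert, not_or]
            refine ⟨?_, hχ ρ⟩
            obtain ⟨u, m, hm, hρ, hd⟩ := hif
            have := hn u m ((hi u).trans hm)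
            rw [hρ, hd] at this
            exact this.symm
          · have hBe : B i ρ = A ρ := if_neg hif
            rw [hBe]
            exact hχ ρ
        obtain ⟨y, hy, hy'⟩ := hE2 i χ hχB
        exact ⟨y, Or.inr (Set.mem_iUnion.2 ⟨i, hy⟩), hy'⟩

theorem single {ι : Type} (hι : Cardinal.aleph0 ≤ Cardinal.mk ι) (F : ι → List Bool → ℕ)
    (hF : ∀ g : List Bool → ℕ, ∃ i, ∀ s, g s ≤ F i s) (X : Set (ℕ → Bool)) (s0 : List Bool)
    (hX : Good X s0) (K : ℕ) :
    ∃ E : Set (ℕ → Bool), E ⊆ X ∧ Cardinal.mk E ≤ Cardinal.mk ι ∧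
      ∀ χ : List Bool → (Fin K → Bool),
        ∃ y ∈ E, ∃ᶠ m in atTop, (fun r : Fin K => y (m + r)) = χ (pre y m) := by
  obtain ⟨E, hE0, hE1, hE2⟩ := layers hι F hF X s0 hX K (Fintype.card (Fin K → Bool))
    (fun _ => ∅) (fun s _ => ⟨s, List.prefix_refl _, by simp⟩)
  exact ⟨E, hE0, hE1, fun χ => hE2 χ (fun ρ => Finset.notMem_empty _)⟩

end Layers

def antiExt (π : List Bool → Bool) (l : List Bool) : ℕ → List Bool
  | 0 => l
  | r + 1 => antiExt π l r ++ [!π (antiExt π l r)]

theorem evades_of_block (K : ℕ) (π : List Bool → Bool) (y : ℕ → Bool) (m : ℕ)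
    (h : (fun r : Fin K => y (m + r)) = (fun r : Fin K => !π (antiExt π (pre y m) r))) :
    ∀ i, m ≤ i → i < m + K → y i ≠ π (pre y i) := by
  have h' : ∀ r, r < K → y (m + r) = !π (antiExt π (pre y m) r) := fun r hr =>
    congrFun h ⟨r, hr⟩
  have key : ∀ r, r ≤ K → pre y (m + r) = antiExt π (pre y m) r := by
    intro r
    induction r with
    | zero => intro _; rfl
    | succ r ih =>
      intro hr
      rw [← Nat.add_assoc, pre_succ, ih (by omega), h' r (by omega)]
      rfl
  intro i hi1 hi2
  obtain ⟨r, rfl⟩ := Nat.exists_eq_add_of_le hi1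
  rw [key r (by omega), h' r (by omega)]
  simp

section Merge

def stepM (k : ℕ) (π : ℕ → List Bool → Bool) (q : List Bool × ℕ × ℕ) (x : Bool) :
    List Bool × ℕ × ℕ :=
  if x = π (Nat.unpair q.2.1).1 q.1 then (q.1 ++ [x], q.2.1, 0)
  else if q.2.2 = k then (q.1 ++ [x], q.2.1 + 1, 0)
  else (q.1 ++ [x], q.2.1, q.2.2 + 1)

def stM (k : ℕ) (π : ℕ → List Bool → Bool) (s : List Bool) : List Bool × ℕ × ℕ :=
  s.foldl (stepM k π) ([], 0, 0)

theorem stM_append (k : ℕ) (π : ℕ → List Bool → Bool) (s : List Bool) (x : Bool) :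
    stM k π (s ++ [x]) = stepM k π (stM k π s) x := by
  unfold stM
  rw [List.foldl_append]
  rfl

theorem stM_fst (k : ℕ) (π : ℕ → List Bool → Bool) (s : List Bool) : (stM k π s).1 = s := by
  induction s using List.reverseRecOn with
  | nil => rfl
  | append_singleton s x ih =>
    rw [stM_append]
    unfold stepM
    split_ifs <;> simp [ih]

theorem merge (k : ℕ) (π : ℕ → List Bool → Bool) (f : ℕ → Bool)
    (hf : ∃ᶠ m in atTop, ∀ i, m ≤ i → i < m + (k + 1) →
      f i ≠ π (Nat.unpair (stM k π (pre f i)).2.1).1 (pre f i)) :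
    ∀ j, ∃ᶠ n in atTop, ∀ i, n ≤ i → i < n + (k + 1) → f i ≠ π j (pre f i) := by
  let c : ℕ → ℕ := fun m => (stM k π (pre f m)).2.1
  let r : ℕ → ℕ := fun m => (stM k π (pre f m)).2.2
  have hstep : ∀ m, stM k π (pre f (m + 1)) = stepM k π (stM k π (pre f m)) (f m) := by
    intro m
    rw [pre_succ, stM_append]
  have hA : ∀ m, f m = π (Nat.unpair (c m)).1 (pre f m) → c (m + 1) = c m ∧ r (m + 1) = 0 := by
    intro m hm
    have h1 := hstep m
    unfold stepM at h1
    rw [stM_fst, if_pos hm] at h1
    exact ⟨congrArg (fun q => q.2.1) h1, congrArg (fun q => q.2.2) h1⟩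
  have hB : ∀ m, f m ≠ π (Nat.unpair (c m)).1 (pre f m) → r m = k →
      c (m + 1) = c m + 1 ∧ r (m + 1) = 0 := by
    intro m hm hr
    have h1 := hstep m
    unfold stepM at h1
    rw [stM_fst, if_neg hm, if_pos hr] at h1
    exact ⟨congrArg (fun q => q.2.1) h1, congrArg (fun q => q.2.2) h1⟩
  have hC : ∀ m, f m ≠ π (Nat.unpair (c m)).1 (pre f m) → r m ≠ k →
      c (m + 1) = c m ∧ r (m + 1) = r m + 1 := by
    intro m hm hr
    have h1 := hstep m
    unfold stepM at h1
    rw [stM_fst, if_neg hm, if_neg hr] at h1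
    exact ⟨congrArg (fun q => q.2.1) h1, congrArg (fun q => q.2.2) h1⟩
  have hr0 : r 0 = 0 := rfl
  have hrk : ∀ m, r m ≤ k := by
    intro m
    induction m with
    | zero => omega
    | succ m ih =>
      by_cases h1 : f m = π (Nat.unpair (c m)).1 (pre f m)
      · have := (hA m h1).2; omega
      · by_cases h2 : r m = k
        · have := (hB m h1 h2).2; omega
        · have := (hC m h1 h2).2; omega
  have hmono : Monotone c := by
    apply monotone_nat_of_le_succ
    intro m
    by_cases h1 : f m = π (Nat.unpair (c m)).1 (pre f m)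
    · have := (hA m h1).1; omega
    · by_cases h2 : r m = k
      · have := (hB m h1 h2).1; omega
      · have := (hC m h1 h2).1; omega
  have hinv : ∀ m, r m ≤ m ∧ ∀ i, m - r m ≤ i → i < m →
      c i = c m ∧ f i ≠ π (Nat.unpair (c m)).1 (pre f i) := by
    intro m
    induction m with
    | zero => exact ⟨by omega, fun i _ hi => by omega⟩
    | succ m ih =>
      by_cases h1 : f m = π (Nat.unpair (c m)).1 (pre f m)
      · have := (hA m h1).2
        exact ⟨by omega, fun i hi hi' => by omega⟩
      · by_cases h2 : r m = k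
        · have := (hB m h1 h2).2
          exact ⟨by omega, fun i hi hi' => by omega⟩
        · have h3 := hC m h1 h2
          refine ⟨by omega, fun i hi hi' => ?_⟩
          rcases Nat.lt_succ_iff_lt_or_eq.1 hi' with h4 | h4
          · have := ih.2 i (by omega) h4
            rw [h3.1]
            exact this
          · subst h4
            rw [h3.1]
            exact ⟨rfl, h1⟩
  have hinc : ∀ m, (∀ i, m ≤ i → i < m + (k + 1) →
      f i ≠ π (Nat.unpair (c i)).1 (pre f i)) → c m < c (m + (k + 1)) := by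
    intro m hm
    by_contra hcon
    have hconst : ∀ i, m ≤ i → i ≤ m + (k + 1) → c i = c m := by
      intro i h1 h2
      have h3 := hmono h1
      have h4 := hmono h2
      omega
    have hrr : ∀ t, t ≤ k + 1 → r (m + t) = r m + t := by
      intro t
      induction t with
      | zero => intro _; rfl
      | succ t ih =>
        intro ht
        have h5 := ih (by omega)
        have h6 := hm (m + t) (by omega) (by omega)
        by_cases h7 : r (m + t) = k
        · have h8 := (hB (m + t) h6 h7).1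
          have h9 := hconst (m + t) (by omega) (by omega)
          have h10 := hconst (m + t + 1) (by omega) (by omega)
          omega
        · have h8 := (hC (m + t) h6 h7).2
          rw [← Nat.add_assoc]
          omega
    have h11 := hrr (k + 1) le_rfl
    have h12 := hrk (m + (k + 1))
    omega
  have hunb : ∀ N, ∃ m, N ≤ c m := by
    intro N
    induction N with
    | zero => exact ⟨0, Nat.zero_le _⟩
    | succ N ih =>
      obtain ⟨m0, hm0⟩ := ih
      obtain ⟨m, hm, hwin⟩ := (frequently_atTop.1 hf) m0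
      have h1 := hinc m hwin
      have h2 := hmono hm
      exact ⟨m + (k + 1), by omega⟩
  intro j
  rw [frequently_atTop]
  intro M
  let n := Nat.pair j (c (M + k))
  have hn : c (M + k) ≤ n := Nat.right_le_pair _ _
  have hex : ∃ m, n + 1 ≤ c m := hunb (n + 1)
  have hspec := Nat.find_spec hex
  have hmin := fun m => Nat.find_min (H := hex) (m := m)
  have hc0 : c 0 = 0 := rfl
  obtain ⟨m, hm⟩ : ∃ m, Nat.find hex = m + 1 := by
    rcases h0 : Nat.find hex with _ | m
    · exfalso
      rw [h0] at hspec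
      omega
    · exact ⟨m, rfl⟩
  have hlt : ¬ n + 1 ≤ c m := hmin m (by omega)
  rw [hm] at hspec
  have hMm : M + k ≤ m := by
    by_contra hcon
    push Not at hcon
    have h3 : c (m + 1) ≤ c (M + k) := hmono hcon
    omega
  by_cases h1 : f m = π (Nat.unpair (c m)).1 (pre f m)
  · have := (hA m h1).1; omega
  · by_cases h2 : r m = k
    · have h3 := (hB m h1 h2).1
      have hcm : c m = n := by omega
      have hpj : (Nat.unpair (c m)).1 = j := by rw [hcm]; simp [n]
      have h4 := hinv m
      refine ⟨m - k, by omega, ?_⟩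
      intro i hi1 hi2
      rcases Nat.lt_or_ge i m with h5 | h5
      · have := (h4.2 i (by omega) h5).2
        rwa [hpj] at this
      · have : i = m := by omega
        subst this
        rwa [hpj] at h1
    · have := (hC m h1 h2).1; omega

end Merge

theorem infinite_of_dominating (D : Set (ℕ → ℕ))
    (hD : ∀ g : ℕ → ℕ, ∃ f ∈ D, ∀ᶠ n in atTop, g n ≤ f n) : D.Infinite := by
  intro hfin
  obtain ⟨f, hf, hev⟩ := hD (fun n => 1 + ∑ h ∈ hfin.toFinset, h n)
  obtain ⟨n, hn⟩ := hev.exists
  have h1 : f n ≤ ∑ h ∈ hfin.toFinset, h n :=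
    Finset.single_le_sum (f := fun h : ℕ → ℕ => h n) (fun _ _ => Nat.zero_le _)
      (hfin.mem_toFinset.2 hf)
  omega

theorem everywhere_dominating (D : Set (ℕ → ℕ))
    (hD : ∀ g : ℕ → ℕ, ∃ f ∈ D, ∀ᶠ n in atTop, g n ≤ f n) (g : List Bool → ℕ) :
    ∃ q : D × ℕ, ∀ s, g s ≤ q.1.1 (Encodable.encode s) + q.2 := by
  let g' : ℕ → ℕ := fun n => ((Encodable.decode n : Option (List Bool)).map g).getD 0
  obtain ⟨f, hf, hev⟩ := hD g'
  obtain ⟨N, hN⟩ := eventually_atTop.1 hev
  refine ⟨(⟨f, hf⟩, ∑ n ∈ Finset.range N, g' n), ?_⟩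
  intro s
  have hs : g' (Encodable.encode s) = g s := by
    show (((Encodable.decode (Encodable.encode s) : Option (List Bool))).map g).getD 0 = g s
    rw [Encodable.encodek]; rfl
  rcases lt_or_ge (Encodable.encode s) N with h | h
  · have := Finset.single_le_sum (f := g') (fun _ _ => Nat.zero_le _) (Finset.mem_range.2 h)
    rw [hs] at this
    exact this.trans (Nat.le_add_left _ _)
  · have := hN _ h
    rw [hs] at this
    exact this.trans (Nat.le_add_right _ _)

theorem one_assignment (D : Set (ℕ → ℕ))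
    (hD : ∀ g : ℕ → ℕ, ∃ f ∈ D, ∀ᶠ n in atTop, g n ≤ f n) (κ : (ℕ → Bool) → ℕ) :
    ∃ E : Set (ℕ → Bool), Cardinal.mk E ≤ Cardinal.mk D ∧
      ∀ π : ℕ → List Bool → Bool, ∃ f ∈ E, ∀ j : ℕ,
        ∃ᶠ n in atTop, ∀ i ∈ Finset.Ico n (n + κ f),
          f i ≠ π j ((List.range i).map f) := by
  have hinf' : Infinite D := (infinite_of_dominating D hD).to_subtype
  have hDaleph : Cardinal.aleph0 ≤ Cardinal.mk D := Cardinal.aleph0_le_mk D
  have hprod : Cardinal.mk (D × ℕ) = Cardinal.mk D := by
    rw [Cardinal.mk_prod, Cardinal.lift_id, Cardinal.mk_nat, Cardinal.lift_aleph0,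
      Cardinal.mul_aleph0_eq hDaleph]
  obtain ⟨k, s0, hgood⟩ := pigeon κ
  obtain ⟨E, hEX, hE1, hE2⟩ := single (ι := D × ℕ) (by rw [hprod]; exact hDaleph)
    (fun q s => q.1.1 (Encodable.encode s) + q.2) (everywhere_dominating D hD)
    {f | κ f = k} s0 hgood (k + 1)
  refine ⟨E, hE1.trans_eq hprod, ?_⟩
  intro π
  let πm : List Bool → Bool := fun ρ => π (Nat.unpair (stM k π ρ).2.1).1 ρ
  obtain ⟨y, hy, hy'⟩ := hE2 (fun ρ r => !πm (antiExt πm ρ r))
  refine ⟨y, hy, ?_⟩
  have hκ : κ y = k := hEX hy
  have hm := merge k π y (hy'.mono fun m hm => evades_of_block (k + 1) πm y m hm)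
  intro j
  refine (hm j).mono fun n hn i hi => ?_
  rw [Finset.mem_Ico, hκ] at hi
  exact hn i hi.1 (by omega)

theorem result :
    ∀ D : Set (ℕ → ℕ),
      (∀ g : ℕ → ℕ, ∃ f ∈ D, ∀ᶠ n in atTop, g n ≤ f n) →
      ∀ K : Set ((ℕ → Bool) → ℕ), Cardinal.mk K ≤ Cardinal.mk D →
      ∃ E : Set (ℕ → Bool),
        Cardinal.mk E ≤ Cardinal.mk D ∧
        ∀ κ ∈ K, ∀ π : ℕ → List Bool → Bool, ∃ f ∈ E, ∀ j : ℕ,
          ∃ᶠ n in atTop, ∀ i ∈ Finset.Ico n (n + κ f),
            f i ≠ π j ((List.range i).map f) := by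
  intro D hD K hK
  have hinf' : Infinite D := (infinite_of_dominating D hD).to_subtype
  have hDaleph : Cardinal.aleph0 ≤ Cardinal.mk D := Cardinal.aleph0_le_mk D
  choose E hE1 hE2 using fun κ : K => one_assignment D hD κ.1
  refine ⟨⋃ κ, E κ, ?_, ?_⟩
  · refine (Cardinal.mk_iUnion_le _).trans ?_
    refine (mul_le_mul' hK (ciSup_le' hE1)).trans ?_
    rw [Cardinal.mul_eq_self hDaleph]
  · intro κ hκ π
    obtain ⟨f, hf, hf'⟩ := hE2 ⟨κ, hκ⟩ π
    exact ⟨f, Set.mem_iUnion.2 ⟨⟨κ, hκ⟩, hf⟩, hf'⟩

end Pool.Agent.Lib.MP_b28f50_lc.AssignedEvasion
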