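import Pool.Agent.Lib.MP_b28f50_lc.Tower

set_option autoImplicit false
open Filter Cardinal

namespace Pool.Agent.Lib.MP_b28f50_lc

/-- Eventually different families of functions `ℕ → ℕ`. -/
def ED (C : Set (ℕ → ℕ)) : Prop := ∀ g : ℕ → ℕ, ∃ Φ ∈ C, {n | Φ n = g n}.Finite

/-- The least size of an eventually different family (this is `cov(M)`). -/
noncomputable def lam : Cardinal.{0} := sInf {c | ∃ C : Set (ℕ → ℕ), ED C ∧ Cardinal.mk C = c}

theorem ED_univ : ED Set.univ := by
  intro g
  refine ⟨fun n => g n + 1, Set.mem_univ _, ?_⟩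
  have : {n | g n + 1 = g n} = ∅ := by
    ext n; simp
  rw [this]; exact Set.finite_empty

theorem lam_spec : ∃ C : Set (ℕ → ℕ), ED C ∧ Cardinal.mk C = lam :=
  csInf_mem (s := {c | ∃ C : Set (ℕ → ℕ), ED C ∧ Cardinal.mk C = c}) ⟨_, Set.univ, ED_univ, rfl⟩

theorem lam_le {C : Set (ℕ → ℕ)} (h : ED C) : lam ≤ Cardinal.mk C :=
  csInf_le' ⟨C, h, rfl⟩

theorem exists_io_nat {ι : Type} (f : ι → ℕ → ℕ) (h : Cardinal.mk ι < lam) :
    ∃ g : ℕ → ℕ, ∀ i, {n | f i n = g n}.Infinite := by
  by_contra hcon
  push Not at hcon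
  have hED : ED (Set.range f) := by
    intro g
    obtain ⟨i, hi⟩ := hcon g
    exact ⟨f i, ⟨i, rfl⟩, hi⟩
  have h1 := lam_le hED
  have h2 : Cardinal.mk (Set.range f) ≤ Cardinal.mk ι := mk_range_le
  exact absurd (lt_of_le_of_lt (h1.trans h2) h) (lt_irrefl _)

theorem exists_io {ι β : Type} [Encodable β] (f : ι → ℕ → β) (h : Cardinal.mk ι < lam) :
    ∃ g : ℕ → Option β, ∀ i, {n | g n = some (f i n)}.Infinite := by
  obtain ⟨g, hg⟩ := exists_io_nat (fun i n => Encodable.encode (f i n)) h
  refine ⟨fun n => Encodable.decode (g n), fun i => (hg i).mono ?_⟩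
  intro n hn
  have : Encodable.encode (f i n) = g n := hn
  show Encodable.decode (g n) = some (f i n)
  rw [← this, Encodable.encodek]

/-- A countable union of families of size `< lam` is not eventually different. -/
theorem not_ED_iUnion (C : ℕ → Set (ℕ → ℕ)) (h : ∀ n, Cardinal.mk (C n) < lam) : ¬ ED (⋃ n, C n) := by
  have h1 : ∀ n, ∃ g : ℕ → ℕ, ∀ Φ : C n, {m | Φ.1 (Nat.pair n m) = g m}.Infinite := fun n =>
    exists_io_nat (fun (Φ : C n) m => Φ.1 (Nat.pair n m)) (h n)
  choose g hg using h1
  intro hED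
  obtain ⟨Φ, hΦ, hfin⟩ := hED (fun q => g q.unpair.1 q.unpair.2)
  obtain ⟨n, hn⟩ := Set.mem_iUnion.mp hΦ
  have h2 := hg n ⟨Φ, hn⟩
  have h3 : (Nat.pair n) '' {m | Φ (Nat.pair n m) = g n m} ⊆
      {q | Φ q = g q.unpair.1 q.unpair.2} := by
    rintro _ ⟨m, hm, rfl⟩
    have : Φ (Nat.pair n m) = g n m := hm
    simpa using this
  have h4 : ((Nat.pair n) '' {m | Φ (Nat.pair n m) = g n m}).Infinite := by
    apply Set.Infinite.image _ h2
    intro a _ b _ hab
    exact (Nat.pair_eq_pair.mp hab).2
  exact h4 (hfin.subset h3)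

theorem one_lt_lam : 1 < lam := by
  obtain ⟨C, hC, hc⟩ := lam_spec
  rw [← hc]
  by_contra hcon
  push Not at hcon
  rw [mk_le_one_iff_set_subsingleton] at hcon
  obtain ⟨Φ, hΦ, -⟩ := hC (fun _ => 0)
  obtain ⟨Ψ, hΨ, hfin⟩ := hC Φ
  have := hcon hΦ hΨ
  subst this
  simp only [Set.ofPred_true] at hfin
  exact Set.infinite_univ hfin

theorem aleph0_lt_lam : ℵ₀ < lam := by
  obtain ⟨C, hC, hc⟩ := lam_spec
  by_contra hcon
  push Not at hcon
  rw [← hc, Cardinal.mk_le_aleph0_iff] at hcon
  have hne : Nonempty C := by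
    obtain ⟨Φ, hΦ, -⟩ := hC (fun _ => 0)
    exact ⟨⟨Φ, hΦ⟩⟩
  obtain ⟨e, he⟩ := exists_surjective_nat C
  apply not_ED_iUnion (fun n => {(e n).1}) (fun n => by
    rw [mk_singleton]; exact one_lt_lam)
  have : (⋃ n, {(e n).1}) = C := by
    ext Φ
    simp only [Set.mem_iUnion, Set.mem_singleton_iff]
    constructor
    · rintro ⟨n, rfl⟩; exact (e n).2
    · intro h
      obtain ⟨n, hn⟩ := he ⟨Φ, h⟩
      exact ⟨n, by rw [hn]⟩
  rw [this]
  exact hC

/-- A dominating family has size at least `lam`. -/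
theorem lam_le_of_dominating (D : Set (ℕ → ℕ))
    (hD : ∀ g : ℕ → ℕ, ∃ f ∈ D, ∀ᶠ n in atTop, g n ≤ f n) : lam ≤ Cardinal.mk D := by
  have hED : ED ((fun f n => f n + 1) '' D) := by
    intro g
    obtain ⟨f, hf, hfg⟩ := hD g
    refine ⟨_, ⟨f, hf, rfl⟩, ?_⟩
    obtain ⟨N, hN⟩ := eventually_atTop.mp hfg
    refine (Set.finite_lt_nat N).subset ?_
    intro n hn
    by_contra hcon
    have h1 : N ≤ n := not_lt.mp hcon
    have h2 := hN n h1
    have h3 : f n + 1 = g n := hn
    omega
  exact (lam_le hED).trans mk_image_le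

/-! ### The universal words -/

/-- A word which, appended to any member of the list, passes through a value of `m`. -/
def uw (m : List Bool → List Bool) : List (List Bool) → List Bool
  | [] => []
  | (s :: Ls) => uw m Ls ++ (m (s ++ uw m Ls)).drop (s ++ uw m Ls).length

theorem uw_spec {m : List Bool → List Bool} (hm : Ext m) :
    ∀ (Ls : List (List Bool)) (s : List Bool), s ∈ Ls →
      ∃ s', s <+: s' ∧ m s' <+: s ++ uw m Ls := by
  intro Ls
  induction Ls with
  | nil => intro s hs; simp at hs
  | cons t Ls ih =>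
    intro s hs
    rcases List.mem_cons.mp hs with rfl | hs
    · refine ⟨s ++ uw m Ls, List.prefix_append _ _, ?_⟩
      have h1 : m (s ++ uw m Ls) =
          (s ++ uw m Ls) ++ (m (s ++ uw m Ls)).drop (s ++ uw m Ls).length := by
        obtain ⟨w, hw⟩ := hm (s ++ uw m Ls)
        rw [← hw]
        simp
      rw [uw, ← List.append_assoc, ← h1]
    · obtain ⟨s', h1, h2⟩ := ih s hs
      refine ⟨s', h1, h2.trans ?_⟩
      rw [uw, ← List.append_assoc]
      exact List.prefix_append _ _

/-- the prefix of length `n` of `x` -/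
def pre (x : ℕ → Bool) (n : ℕ) : List Bool := (List.range n).map x

@[simp] theorem pre_length (x : ℕ → Bool) (n : ℕ) : (pre x n).length = n := by simp [pre]

theorem take_pre (x : ℕ → Bool) (n i : ℕ) (h : i ≤ n) : (pre x n).take i = pre x i := by
  unfold pre
  rw [← List.map_take, List.take_range, min_eq_left h]

theorem pre_prefix (x : ℕ → Bool) {t : List Bool} {n : ℕ} (h : t <+: pre x n) :
    t = pre x t.length := by
  have h1 := List.prefix_iff_eq_take.mp h
  have h2 : t.length ≤ n := by simpa using h.length_le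
  rw [take_pre x n _ h2] at h1
  exact h1

theorem getElem?_pre (x : ℕ → Bool) (n i : ℕ) (h : i < n) : (pre x n)[i]? = some (x i) := by
  simp [pre, h]

theorem pre_add (x : ℕ → Bool) (n : ℕ) (w : List Bool)
    (h : ∀ i < w.length, x (n + i) = w.getD i false) :
    pre x (n + w.length) = pre x n ++ w := by
  apply List.ext_getElem?
  intro i
  by_cases hi : i < n
  · rw [getElem?_pre x _ i (by omega), List.getElem?_append_left (by simpa using hi),
      getElem?_pre x n i hi]
  · by_cases hi2 : i < n + w.length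
    · rw [getElem?_pre x _ i hi2, List.getElem?_append_right (by simpa using hi)]
      have h1 : i - n < w.length := by omega
      have h2 := h (i - n) h1
      have h3 : n + (i - n) = i := by omega
      rw [h3] at h2
      rw [h2]
      simp [List.getD_eq_getElem?_getD, List.getElem?_eq_getElem h1]
    · rw [List.getElem?_eq_none (by simp; omega), List.getElem?_eq_none (by simp; omega)]

/-! ### The selection -/

/-- select an entry of `p` whose first coordinate has not been used -/
def sel (used : List ℕ) (p : List (ℕ × List Bool)) : Option (ℕ × List Bool) :=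
  p.find? (fun q => decide (q.1 ∉ used))

/-- the list of used indices -/
def usedL (P : ℕ → List (ℕ × List Bool)) : ℕ → List ℕ
  | 0 => []
  | (m + 1) => match sel (usedL P m) (P m) with
    | some q => q.1 :: usedL P m
    | none => usedL P m

theorem usedL_length (P : ℕ → List (ℕ × List Bool)) (m : ℕ) : (usedL P m).length ≤ m := by
  induction m with
  | zero => simp [usedL]
  | succ m ih =>
    rw [usedL]
    cases h : sel (usedL P m) (P m) with
    | none => simp; omega
    | some q => simp; omega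

theorem usedL_mono (P : ℕ → List (ℕ × List Bool)) {m m' : ℕ} (h : m ≤ m') :
    usedL P m ⊆ usedL P m' := by
  induction m', h using Nat.le_induction with
  | base => exact fun _ h => h
  | succ n hn ih =>
    intro a ha
    have h1 := ih ha
    rw [usedL]
    cases h : sel (usedL P n) (P n) with
    | none => exact h1
    | some q => exact List.mem_cons_of_mem _ h1

theorem sel_some {used : List ℕ} {p : List (ℕ × List Bool)} {q : ℕ × List Bool}
    (h : sel used p = some q) : q ∈ p ∧ q.1 ∉ used := by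
  refine ⟨List.mem_of_find?_eq_some h, ?_⟩
  have := List.find?_some h
  simpa using this

theorem sel_inj (P : ℕ → List (ℕ × List Bool)) {m m' : ℕ} {q q' : ℕ × List Bool}
    (h : sel (usedL P m) (P m) = some q) (h' : sel (usedL P m') (P m') = some q')
    (hlt : m < m') : q.1 ≠ q'.1 := by
  intro heq
  have h1 : q.1 ∈ usedL P (m + 1) := by
    rw [usedL, h]; simp
  have h2 := usedL_mono P (show m + 1 ≤ m' from hlt) h1
  rw [heq] at h2
  exact (sel_some h').2 h2

theorem sel_eq (P : ℕ → List (ℕ × List Bool)) {m m' : ℕ} {q q' : ℕ × List Bool}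
    (h : sel (usedL P m) (P m) = some q) (h' : sel (usedL P m') (P m') = some q')
    (heq : q.1 = q'.1) : q = q' ∧ m = m' := by
  rcases lt_trichotomy m m' with hlt | rfl | hlt
  · exact absurd heq (sel_inj P h h' hlt)
  · rw [h] at h'
    exact ⟨Option.some_injective _ h', rfl⟩
  · exact absurd heq.symm (sel_inj P h' h hlt)

end Pool.Agent.Lib.MP_b28f50_lc
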